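import Mathlib
import Pool.Agent.BSH.Defs

set_option autoImplicit false

/-! Definitions of the squad CPT (capacity theorem, MP_b2b50d_lc, notes 3635, 3638, 3639). -/

namespace Pool.Agent.CPT

open MvPolynomial Pool.Agent.BSH Pool.Agent.Helper78_ACIT

/-- The field of rational functions in `x_0, ..., x_(n-1)`. -/
abbrev KK (n : ℕ) (E : Type) [Field E] : Type := FractionRing (MvPolynomial (Fin n) E)

/-- A polynomial as a rational function. -/
noncomputable def al {E : Type} [Field E] {n : ℕ} (F : MvPolynomial (Fin n) E) : KK n E :=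
  algebraMap (MvPolynomial (Fin n) E) (KK n E) F

/-- The logarithmic derivative `∂_i F / F`. -/
noncomputable def L {E : Type} [Field E] {n : ℕ} (F : MvPolynomial (Fin n) E) (i : Fin n) :
    KK n E :=
  al (pderiv i F) / al F

/-- There are `N` rational functions which are, multiplied with all monomials in the `y_i`,
linearly independent. -/
def Ind (E : Type) [Field E] (n : ℕ) (y : Fin n → KK n E) (N : ℕ) : Prop :=
  ∃ m : Fin N → KK n E, LinearIndependent E
    (fun p : Fin N × (Fin n →₀ ℕ) => m p.1 * p.2.prod fun i k => y i ^ k)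

/-- `x_0, L_1, ..., L_n`. -/
noncomputable def ys {E : Type} [Field E] {n : ℕ} (F : MvPolynomial (Fin (n + 1)) E) :
    Fin (n + 1) → KK (n + 1) E :=
  Fin.cons (al (X 0)) fun i => L F i.succ

/-- The substitution `x_0 -> c`, `x_(i+1) -> x_i`. -/
noncomputable def spec {E : Type} [Field E] {n : ℕ} (c : E) :
    MvPolynomial (Fin (n + 1)) E →ₐ[E] MvPolynomial (Fin n) E :=
  aeval (Fin.cons (C c) X)

/-- `F` can be computed from `x_0, ..., x_(n-1)` with at most `s` multiplications (linear
combinations are free). -/
def IsCheapF (E : Type) [Field E] (n s : ℕ) (F : MvPolynomial (Fin n) E) : Prop :=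
  ∃ l : List (MvPolynomial (Fin n) E), l.length ≤ s ∧ Ch E (Set.range X) l ∧
    F ∈ sp E (Set.range X) l

/-- The value of the circuit `G` modulo `p` at the point `c`. -/
def tval (p n : ℕ) (c : Fin n → ℕ) (G : List Gate) : ZMod p :=
  out (fun i => if h : i < n then ((c ⟨i, h⟩ : ℕ) : ZMod p) else 0) G

end Pool.Agent.CPT
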