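import Mathlib
import Pool.Agent.CPT.Defs

set_option autoImplicit false

/-! Further definitions of the squad CPT (part A). -/

namespace Pool.Agent.CPT

open MvPolynomial Pool.Agent.BSH Pool.Agent.Helper78_ACIT

/-- The substitution `x_i = ∑ j < r, t ^ (i (j + 1)) y_j`. -/
noncomputable def vdm {E : Type} [Field E] (n r : ℕ) (t : E) :
    MvPolynomial (Fin n) E →ₐ[E] MvPolynomial (Fin r) E :=
  aeval fun i => ∑ j : Fin r, C (t ^ ((i : ℕ) * ((j : ℕ) + 1))) * X j

/-- The value `∑ j < r, t ^ (i (j + 1)) c_j` of the variable `x_i`. -/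
def pt (A : Type) [CommRing A] (r t : ℕ) (c : Fin r → ℕ) (i : ℕ) : A :=
  ∑ j : Fin r, (t : A) ^ (i * ((j : ℕ) + 1)) * (c j : A)

/-- The value modulo `p` of the circuit `G` at the point with the parameters `t`, `c`; the variable
which occurs first in the gate number `i` gets the value `∑ j < r, t ^ (i (j + 1)) c_j`.
-/
def tv {r : ℕ} (p t : ℕ) (c : Fin r → ℕ) (G : List Gate) : ZMod p :=
  out (fun v => pt (ZMod p) r t c (G.idxOf (Gate.var v))) G

/-- A bound for the number of bits of the values of the variables. -/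
def bits (n s : ℕ) : ℕ := (2 * s + 1) + n * (2 * s + 1) * (n + 2 * (2 * s + 1)) + 3 * s

end Pool.Agent.CPT
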