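import Mathlib
import Pool.Agent.CPT.Defs

set_option autoImplicit false

/-! Statements of the squad CPT, step (B) (notes 3638, 3639).

`κ` plays the role of `E(L_1, ..., L_n)`, `κ[X]` the one of `κ[x_0]`, `K` the one of
`E(x_0, ..., x_n)`; `K` is an algebra over `κ[X]` and over its fraction field. -/

namespace Pool.Agent.CPT

open Polynomial

/-- There are derivations dual to the `ψ_j`. -/
def HasDual (E κ : Type) [Field E] [Field κ] [Algebra E κ] {n : ℕ} (ψ : Fin n → κ) : Prop :=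
  ∃ δ : Fin n → Derivation E κ κ, ∀ i j, δ i (ψ j) = if i = j then 1 else 0

/-- `J` is an embedding of `K` into Laurent series over `Λ` at the point `c`,
`x_0 = c + T ^ M`. -/
def IsPx {κ K Λ : Type} [Field κ] [Field K] [Field Λ] [Algebra κ Λ] [Algebra κ[X] K] (c : κ)
    (M : ℕ) (J : K →+* LaurentSeries Λ) : Prop :=
  0 < M ∧ (∀ a : κ, J (algebraMap κ[X] K (C a)) = HahnSeries.C (algebraMap κ Λ a)) ∧
    J (algebraMap κ[X] K X) = HahnSeries.C (algebraMap κ Λ c) + HahnSeries.single (M : ℤ) 1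

/-- LIP: the independence of all `m_i y ^ α` in terms of polynomials. -/
def LipStmt : Prop := ∀ (E K : Type) [Field E] [Field K] [Algebra E K] (k N : ℕ)
  (y : Fin k → K) (m : Fin N → K),
  LinearIndependent E (fun p : Fin N × (Fin k →₀ ℕ) => m p.1 * p.2.prod fun i r => y i ^ r) ↔
    ∀ P : Fin N → MvPolynomial (Fin k) E, ∑ i, m i * MvPolynomial.aeval y (P i) = 0 → P = 0

/-- LDV: coefficientwise derivations of Laurent series. -/
def LdvStmt : Prop := ∀ (Λ : Type) [Field Λ] (δ : Derivation ℤ Λ Λ),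
  ∃ D : Derivation ℤ (LaurentSeries Λ) (LaurentSeries Λ),
    ∀ (f : LaurentSeries Λ) (m : ℤ), (D f).coeff m = δ (f.coeff m)

/-- CHA: the chain rule. -/
def ChaStmt : Prop := ∀ (E S : Type) [Field E] [CommRing S] (e : E →+* S) (D : Derivation ℤ S S),
  (∀ a, D (e a) = 0) → ∀ (m : ℕ) (x : Fin m → S) (F : MvPolynomial (Fin m) E),
    D (MvPolynomial.eval₂Hom e x F) =
      ∑ i, MvPolynomial.eval₂Hom e x (MvPolynomial.pderiv i F) * D (x i)

/-- LAU: the key lemma (B1) on Laurent series. -/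
def LauStmt : Prop := ∀ (E Λ : Type) [Field E] [CharZero E] [Field Λ] [Algebra E Λ] (n : ℕ)
  (ψ : Fin n → Λ) (_ : HasDual E Λ ψ) (F : MvPolynomial (Fin (n + 1)) E) (c : E) (M : ℕ)
  (_ : 0 < M) (x : Fin (n + 1) → LaurentSeries Λ)
  (_ : x 0 = HahnSeries.C (algebraMap E Λ c) + HahnSeries.single (M : ℤ) 1)
  (_ : (MvPolynomial.X 0 - MvPolynomial.C c) ∣ F)
  (_ : MvPolynomial.eval₂Hom (HahnSeries.C.comp (algebraMap E Λ)) x F ≠ 0)
  (_ : ∀ j : Fin n, MvPolynomial.eval₂Hom (HahnSeries.C.comp (algebraMap E Λ)) x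
      (MvPolynomial.pderiv j.succ F) =
    HahnSeries.C (ψ j) * MvPolynomial.eval₂Hom (HahnSeries.C.comp (algebraMap E Λ)) x F),
  (MvPolynomial.eval₂Hom (HahnSeries.C.comp (algebraMap E Λ)) x (MvPolynomial.pderiv 0 F) /
    MvPolynomial.eval₂Hom (HahnSeries.C.comp (algebraMap E Λ)) x F).order ≤ -(M : ℤ)

/-- DUA: dual derivations of the field of rational functions. -/
def DuaStmt : Prop := ∀ (E : Type) [Field E] (n : ℕ),
  HasDual E (KK n E) (fun j : Fin n => al (MvPolynomial.X j))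

/-- DEX: dual derivations extend to algebraic extensions. -/
def DexStmt : Prop := ∀ (E κ Λ : Type) [Field E] [Field κ] [CharZero κ] [Field Λ] [Algebra E κ]
  [Algebra κ Λ] [Algebra E Λ] [IsScalarTower E κ Λ] [Algebra.IsAlgebraic κ Λ] (n : ℕ)
  (ψ : Fin n → κ), HasDual E κ ψ → HasDual E Λ (fun j => algebraMap κ Λ (ψ j))

/-- PJZ: the expansion of the rational functions in `X` at the point `c`. -/
def PjzStmt : Prop := ∀ (κ Λ : Type) [Field κ] [Field Λ] [Algebra κ Λ] (c : κ),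
  ∃ j : FractionRing κ[X] →+* LaurentSeries Λ,
    (∀ a : κ, j (algebraMap κ[X] (FractionRing κ[X]) (C a)) =
      HahnSeries.C (algebraMap κ Λ a)) ∧
    j (algebraMap κ[X] (FractionRing κ[X]) X) =
      HahnSeries.C (algebraMap κ Λ c) + HahnSeries.single 1 1 ∧
    ∀ q, 0 ≤ (j q).order → ∃ f p : κ[X], f.eval c ≠ 0 ∧
      algebraMap κ[X] (FractionRing κ[X]) f * q = algebraMap κ[X] (FractionRing κ[X]) p

/-- PUX: Puiseux embeddings exist, and integrality at `c` can be checked with them. -/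
def PuxStmt : Prop := ∀ (κ K Λ : Type) [Field κ] [CharZero κ] [Field K] [Field Λ]
  [IsAlgClosed Λ] [Algebra κ Λ] [Algebra κ[X] K] [Algebra (FractionRing κ[X]) K]
  [IsScalarTower κ[X] (FractionRing κ[X]) K] [FiniteDimensional (FractionRing κ[X]) K] (c : κ),
  (∃ (M : ℕ) (J : K →+* LaurentSeries Λ), IsPx c M J) ∧
  ∀ w : K, (∀ (M : ℕ) (J : K →+* LaurentSeries Λ), IsPx c M J → 0 ≤ (J w).order) →
    ∃ f : κ[X], f.eval c ≠ 0 ∧ IsIntegral κ[X] (algebraMap κ[X] K f * w)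

/-- ITG: (B2), the local integrality of `1 / ((x_0 - c) L_0)`. -/
def ItgStmt : Prop := ∀ (E κ K : Type) [Field E] [CharZero E] [Field κ] [Algebra E κ] [Field K]
  [Algebra κ[X] K] [Algebra (FractionRing κ[X]) K] [IsScalarTower κ[X] (FractionRing κ[X]) K]
  [FiniteDimensional (FractionRing κ[X]) K] (n : ℕ) (ψ : Fin n → κ) (_ : HasDual E κ ψ)
  (e : E →+* K) (_ : ∀ a, e a = algebraMap κ[X] K (C (algebraMap E κ a)))
  (F : MvPolynomial (Fin (n + 1)) E) (x : Fin (n + 1) → K) (_ : x 0 = algebraMap κ[X] K X)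
  (_ : MvPolynomial.eval₂Hom e x F ≠ 0)
  (_ : ∀ j : Fin n, MvPolynomial.eval₂Hom e x (MvPolynomial.pderiv j.succ F) =
    algebraMap κ[X] K (C (ψ j)) * MvPolynomial.eval₂Hom e x F)
  (c : E) (_ : (MvPolynomial.X 0 - MvPolynomial.C c) ∣ F),
  ∃ (f : κ[X]) (y : K), f.eval (algebraMap E κ c) ≠ 0 ∧ IsIntegral κ[X] y ∧
    algebraMap κ[X] K f = algebraMap κ[X] K (X - C (algebraMap E κ c)) * y *
      (MvPolynomial.eval₂Hom e x (MvPolynomial.pderiv 0 F) / MvPolynomial.eval₂Hom e x F)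

/-- GLU: the local elements are glued together. -/
def GluStmt : Prop := ∀ (κ K : Type) [Field κ] [Field K] [Algebra κ[X] K] (a : ℕ) (t : Fin a → κ)
  (_ : Function.Injective t) (u : K) (_ : 1 ≤ a)
  (_ : ∀ j, ∃ (f : κ[X]) (y : K), f.eval (t j) ≠ 0 ∧ IsIntegral κ[X] y ∧
    algebraMap κ[X] K f = algebraMap κ[X] K (X - C (t j)) * y * u),
  ∃ (g f : κ[X]) (y : K), g.natDegree = a ∧ IsCoprime f g ∧ IsIntegral κ[X] y ∧
    algebraMap κ[X] K f = algebraMap κ[X] K g * y * u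

/-- FRB: (B3), the integral closure of `κ[X]` in `K` is free. -/
def FrbStmt : Prop := ∀ (κ K : Type) [Field κ] [CharZero κ] [Field K] [Algebra κ[X] K]
  [Algebra (FractionRing κ[X]) K] [IsScalarTower κ[X] (FractionRing κ[X]) K]
  [FiniteDimensional (FractionRing κ[X]) K] (N a : ℕ) (m : Fin N → K)
  (_ : ∀ p : Fin N → κ[X], ∑ i, m i * algebraMap κ[X] K (p i) = 0 → p = 0)
  (g f : κ[X]) (_ : g.natDegree = a) (_ : IsCoprime f g) (u y : K) (_ : u ≠ 0)
  (_ : IsIntegral κ[X] y) (_ : algebraMap κ[X] K f = algebraMap κ[X] K g * y * u),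
  ∃ e : Fin (a * N) → K, ∀ p : Fin (a * N) → κ[X],
    ∑ i, e i * (p i).eval₂ ((algebraMap κ[X] K).comp C) u = 0 → p = 0

/-- TRD: `K` is finite over `κ(x_0)`. -/
def TrdStmt : Prop := ∀ (E : Type) [Field E] (n : ℕ) [Algebra (KK n E)[X] (KK (n + 1) E)]
  [Algebra (FractionRing (KK n E)[X]) (KK (n + 1) E)]
  [IsScalarTower (KK n E)[X] (FractionRing (KK n E)[X]) (KK (n + 1) E)]
  (_ : ∀ a : E, algebraMap (KK n E)[X] (KK (n + 1) E) (C (algebraMap E (KK n E) a)) =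
    algebraMap E (KK (n + 1) E) a),
  FiniteDimensional (FractionRing (KK n E)[X]) (KK (n + 1) E)

/-- ALI: independence gives an embedding of `κ = E(L_1, ..., L_n)`. -/
def AliStmt : Prop := ∀ (E K : Type) [Field E] [Field K] [Algebra E K] (n N : ℕ) (y0 : K)
  (y : Fin n → K) (m : Fin N → K), 1 ≤ N →
  (∀ P : Fin N → MvPolynomial (Fin (n + 1)) E,
    ∑ i, m i * MvPolynomial.aeval (Fin.cons y0 y : Fin (n + 1) → K) (P i) = 0 → P = 0) →
  ∃ ι : KK n E →+* K, (∀ a, ι (algebraMap E (KK n E) a) = algebraMap E K a) ∧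
    (∀ j, ι (al (MvPolynomial.X j)) = y j) ∧
    ∀ p : Fin N → (KK n E)[X], ∑ i, m i * (p i).eval₂ ι y0 = 0 → p = 0

/-- BAK: and conversely. -/
def BakStmt : Prop := ∀ (E K : Type) [Field E] [Field K] [Algebra E K] (n N : ℕ)
  (ι : KK n E →+* K) (_ : ∀ a, ι (algebraMap E (KK n E) a) = algebraMap E K a) (u : K)
  (e : Fin N → K),
  (∀ p : Fin N → (KK n E)[X], ∑ i, e i * (p i).eval₂ ι u = 0 → p = 0) →
  ∀ P : Fin N → MvPolynomial (Fin (n + 1)) E, ∑ i, e i * MvPolynomial.aeval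
    (Fin.cons u (fun j => ι (al (MvPolynomial.X j))) : Fin (n + 1) → K) (P i) = 0 → P = 0

/-- STB: step (B). -/
def StbStmt : Prop := ∀ (E : Type) [Field E] [CharZero E] (n N a : ℕ)
  (F : MvPolynomial (Fin (n + 1)) E) (θ : ℕ → E), F ≠ 0 → 1 ≤ a → Function.Injective θ →
  (∀ j, j < a → (MvPolynomial.X 0 - MvPolynomial.C (θ j)) ∣ F) →
  Ind E (n + 1) (ys F) N → Ind E (n + 1) (L F) (a * N)

end Pool.Agent.CPT
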