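import Mathlib
import Pool.Agent.CPT.DefsA
import Pool.Agent.CPT.StmtsB
import Pool.Agent.BSH.Stmts

set_option autoImplicit false

/-! Statements of the rows of the squad CPT (capacity theorem, MP_b2b50d_lc), part A: everything
except step (B).

THEOREM. `E` a field of characteristic `0`, `θ_i : ℕ → E` injective, `0 ≠ F ∈ E[x_0, ..., x_(n-1)]`
computed with `s` nonscalar multiplications. Then `F(θ_0(c_0), ..., θ_(n-1)(c_(n-1))) ≠ 0` for some
`c ∈ ℕ ^ n` with `∏ max(1, c_i) ≤ 8 ^ s`. -/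

namespace Pool.Agent.CPT

open MvPolynomial Pool.Agent.BSH Pool.Agent.Helper78_ACIT

/-- Row NUM. There are `C(A + n, n)` exponents of degree at most `A` in `n` variables. (For example
an induction on `n`, or `Sym.card_sym_eq_choose` for `Sym (Fin (n + 1)) A`.) -/
def NumStmt : Prop :=
  ∀ n A : ℕ, ∃ S : Finset (Fin n →₀ ℕ), S.card = (A + n).choose n ∧ ∀ α ∈ S, ∑ i, α i ≤ A

/-- Row CHB. Induction on `n`: `(n + 1) C(M + n + 1, n + 1) = (M + n + 1) C(M + n, n)` and
`(A + c + n + 1) (A + 1) ≤ (A + n + 1) (A + c + 1)`. -/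
def ChbStmt : Prop :=
  ∀ n A c : ℕ, (A + c + n).choose n * (A + 1) ^ n ≤ (A + n).choose n * (A + c + 1) ^ n

/-- Row HBF (Hilbert function of a computation). From `BSH.HbdStmt` with `d = 1`, `L1 = []` by the
injective homomorphism `rename Fin.val` (`BSH.MapStmt`, `B' = vs E n`, `l' = []`): the image of
`(sp E (range X) l) ^ D` lies in `(sp E (vs E n) (l.map φ)) ^ D`, and the dimension does not change. -/
def HbfStmt : Prop :=
  ∀ (E : Type) [Field E] (n : ℕ) (l : List (MvPolynomial (Fin n) E)), Ch E (Set.range X) l → ∀ D,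
    Module.finrank E ((sp E (Set.range X) l) ^ D : Submodule E (MvPolynomial (Fin n) E)) ≤
      2 ^ l.length * (D + n).choose n

/-- Row AUB (step (A)).

Proof. Let `l` be the computation, `F ∈ sp E B l`, `B = range X`. `BSH.BstStmt`: there is `l'` of
length `≤ 2 s` such that `W = sp E B (l' ++ l)` contains all `∂_i F`; it contains also `1`, the `x_i`
and `F` (`sp` is monotone). Let `m_j`, `j < N`, be the functions of `Ind`, `q ≠ 0` a common
denominator, `q m_j = P_j` polynomials. There is `c` with `P_j ∈ W ^ c` for all `j` (`W` contains `1` and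
the variables: `W ^ a ≤ W ^ b` for `a ≤ b`, each monomial of degree `≤ c` is in `W ^ c`). For `A ∈ ℕ` and
`|α| ≤ A` the polynomial `Q_(j,α) = P_j F ^ (A - |α|) ∏ (∂_i F) ^ (α_i)` is in `W ^ (A + c)`, and as a
rational function it is `q F ^ A` times `m_j ∏ L_i ^ (α_i)`; so the `Q_(j,α)` are linearly independent:
`N C(A + n, n) ≤ dim W ^ (A + c) ≤ 2 ^ (3 s) C(A + c + n, n)` (NUM, HBF). With CHB:
`(A + 1) ^ n N ≤ 8 ^ s (A + c + 1) ^ n` for all `A`, and `BSH.LimStmt` (`d = c + 1`) gives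
`N ≤ 8 ^ s`. -/
def AubStmt : Prop :=
  ∀ (E : Type) [Field E] (n s N : ℕ) (F : MvPolynomial (Fin n) E), F ≠ 0 → IsCheapF E n s F →
    Ind E n (L F) N → N ≤ 8 ^ s

/-- Row SPC (step (C)). `F_2 = F(c, x_1, ..., x_n)`, written in `x_0, ..., x_(n-1)`.

Proof. Let `m_j = P_j / q`, `j < N`, be the functions for `F_2`, `P_j, q` polynomials in `n` variables; the
same independence holds with `P_j` in place of `m_j` (multiply by `q`). Take `m'_j = P_j(x_1, ..., x_n)`
(`rename Fin.succ`). A relation: finitely many `(j, α)`, `α = (α_0, α')`, coefficients `e_(j,α)` not all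
zero, `∑ e_(j,α) P_j x_0 ^ (α_0) ∏ L_(i+1) ^ (α'_i) = 0`, that is `∑ p_(j,α')(x_0) P_j L ^ (α') = 0` with
`p_(j,α') = ∑ e x_0 ^ (α_0)` in `E[x_0]`, not all zero. Multiply by `F ^ A`, `A` large: the polynomial
identity `∑ p_(j,α')(x_0) P_j F ^ (A - |α'|) ∏ (∂_(i+1) F) ^ (α'_i) = 0`. Let `(x_0 - c) ^ μ` be the highest
power which divides all `p_(j,α')`, `p = (x_0 - c) ^ μ p'`; cancel it and apply `spec c`
(`spec c (∂_(i+1) F) = ∂_i (spec c F)`): `∑ p'_(j,α')(c) P_j F_2 ^ (A - |α'|) ∏ (∂_i F_2) ^ (α'_i) = 0`,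
not all `p'_(j,α')(c)` are zero. Divide by `F_2 ^ A`: a contradiction. (`F ≠ 0` as `spec c F ≠ 0`.) -/
def SpcStmt : Prop :=
  ∀ (E : Type) [Field E] (n N : ℕ) (F : MvPolynomial (Fin (n + 1)) E) (c : E), spec c F ≠ 0 →
    Ind E n (L (spec c F)) N → Ind E (n + 1) (ys F) N

/-- Row SBL (linear substitutions). From `BSH.MapStmt` with `l' = []`. -/
def SblStmt : Prop :=
  ∀ (E : Type) [Field E] (n k s : ℕ) (F : MvPolynomial (Fin n) E)
    (φ : MvPolynomial (Fin n) E →ₐ[E] MvPolynomial (Fin k) E), IsCheapF E n s F →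
    (∀ i, φ (X i) ∈ sp E (Set.range X) ([] : List (MvPolynomial (Fin k) E))) →
    IsCheapF E k s (φ F)

/-- Row GRD (the greedy point).

Proof. STB is `StbStmt` of `StmtsB` (step (B)). Induction on `n`. `n = 0`: `F` is a nonzero constant, `k = 0`, `ρ` empty, `Ind E 0 _ 1` (one
element, `m = 1`). `n + 1`: let `a` be the least number with `F_2 = spec (θ 0 a) F ≠ 0` (it exists: the
values `θ 0 a` are pairwise different and `F ≠ 0`, for example by `finSuccEquiv`: a nonzero polynomial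
in `x_0` over a domain has finitely many zeros). The induction hypothesis for `F_2` and `θ ∘ Fin.succ`
gives `c'`, `k'`, `ρ'`, `G_2 = aeval ρ' F_2 ≠ 0`, `Ind E k' (L G_2) N'`, `N' = ∏ max 1 (c'_i)`.
`c = Fin.cons a c'`; `eval (θ(c)) F = eval (θ'(c')) F_2 ≠ 0`.
If `a = 0`: `k = k'`, `ρ = Fin.cons (C (θ 0 0)) ρ'`, `aeval ρ F = G_2`, `max 1 0 = 1`.
If `a ≥ 1`: `k = k' + 1`, `ρ = Fin.cons (X 0) (rename Fin.succ ∘ ρ')`, `G = aeval ρ F`. Then
`spec (θ 0 a) G = G_2` (both sides are homomorphisms applied to `F`, compare the variables), so `G ≠ 0`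
and by SPC `Ind E (k' + 1) (ys G) N'`. For `j < a` `spec (θ 0 j) F = 0`, so `X 0 - C (θ 0 j)` divides `F`
and therefore `X 0 - C (θ 0 j)` divides `G` (`aeval ρ` of it). STB: `Ind E (k' + 1) (L G) (a N')`. -/
def GrdStmt : Prop :=
  ∀ (E : Type) [Field E] [CharZero E] (n : ℕ) (θ : Fin n → ℕ → E) (F : MvPolynomial (Fin n) E),
    (∀ i, Function.Injective (θ i)) → F ≠ 0 →
    ∃ c : Fin n → ℕ, eval (fun i => θ i (c i)) F ≠ 0 ∧
      ∃ (k : ℕ) (ρ : Fin n → MvPolynomial (Fin k) E),
        (∀ i, (∃ j, ρ i = X j) ∨ ∃ e, ρ i = C e) ∧ (aeval ρ F : MvPolynomial (Fin k) E) ≠ 0 ∧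
        Ind E k (L (aeval ρ F)) (∏ i, max 1 (c i))

/-- Row CAP (capacity theorem). GRD, SBL (`aeval ρ F` is as cheap as `F`), AUB. -/
def CapStmt : Prop :=
  ∀ (E : Type) [Field E] [CharZero E] (n s : ℕ) (θ : Fin n → ℕ → E)
    (F : MvPolynomial (Fin n) E), (∀ i, Function.Injective (θ i)) → F ≠ 0 → IsCheapF E n s F →
    ∃ c : Fin n → ℕ, ∏ i, max 1 (c i) ≤ 8 ^ s ∧ eval (fun i => θ i (c i)) F ≠ 0

/-- Row ESS (essential variables). A polynomial computed with `s` multiplications is a polynomial in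
`2 s + 1` linear forms.

Proof. Induction on the list `l` (`Ch E B l`): there are `2 (length l)` linear forms such that all entries
of `l` are in the algebra generated by them (for `g = a b` take the homogeneous linear parts of `a` and
`b`: an element of `sp E B l` is a constant plus a linear form plus a combination of the entries of
`l`). One more form for `F ∈ sp E B l`. Fill up with zero forms to `2 s + 1`. An element of the algebra
generated by the forms is `aeval (forms) G` for a polynomial `G`. -/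
def EssStmt : Prop :=
  ∀ (E : Type) [Field E] (n s : ℕ) (F : MvPolynomial (Fin n) E), IsCheapF E n s F →
    ∃ (A : Fin (2 * s + 1) → Fin n → E) (G : MvPolynomial (Fin (2 * s + 1)) E),
      F = aeval (fun j => ∑ i, C (A j i) * X i) G

/-- Row DEG. A space of polynomials of dimension `ρ` contains `ρ` polynomials of strictly increasing
degree.

Proof. Induction on `ρ`. For `ρ + 1` let `d` be the largest degree of an element of `W` (`W` is
finite-dimensional), `b` an element of degree `d`; `W' = {a ∈ W : coeff_d a = 0}` is the kernel of a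
nonzero functional on `W`, of dimension `ρ`, and its nonzero elements have degree `< d`. -/
def DegStmt : Prop :=
  ∀ (E : Type) [Field E] (ρ : ℕ) (W : Submodule E (Polynomial E)), Module.Finite E W →
    Module.finrank E W = ρ → ∃ b : Fin ρ → Polynomial E, (∀ k, b k ∈ W) ∧ (∀ k, b k ≠ 0) ∧
      StrictMono fun k => (b k).natDegree

/-- Row QDT. `ρ` linearly independent vectors `A_k`, `a_k(Z) = ∑ i, A_ki Z ^ i`: the determinant of the
`a_k(t ^ (j + 1))`, `k, j < ρ`, is not zero for some `t ≤ n ρ ^ 2`.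

Proof. `Q(t) = det (a_k(t ^ (j + 1))) ∈ E[t]` has degree at most `∑ j < ρ, (j + 1) (n - 1) ≤ n ρ ^ 2`, so it is enough that
`Q ≠ 0` (`E` has characteristic `0`, the numbers `0, ..., n ρ ^ 2` are different). Invertible row
operations over `E` (only a nonzero factor): by DEG the span of the `a_k` (dimension `ρ`) has elements
`b_k` with `d_0 < d_1 < ...`, `d_k = deg b_k`; they are independent, so `b = P a` with `P` invertible, and
`det (b_k(t ^ (j + 1))) = det P Q`. In the Leibniz formula the term of the permutation `π` has degree exactly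
`∑ j, (j + 1) d_(π j)`, which is larger for the identity than for all other `π` (strict rearrangement
inequality: `j` and `d_j` are strictly increasing; for example
`Monovary.sum_mul_comp_perm_lt_sum_mul_iff`). So the sum is not zero. -/
def QdtStmt : Prop :=
  ∀ (E : Type) [Field E] [CharZero E] (ρ n : ℕ) (A : Fin ρ → Fin n → E), LinearIndependent E A →
    ∃ t : ℕ, t ≤ n * ρ ^ 2 ∧
      (Matrix.of fun k j : Fin ρ => ∑ i : Fin n,
        A k i * (t : E) ^ ((i : ℕ) * ((j : ℕ) + 1))).det ≠ 0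

/-- Row CND (condenser). A nonzero polynomial in `r` linear forms stays nonzero under
`x_i = ∑ j < r, t ^ (i (j + 1)) y_j` for some `t ≤ n r ^ 2`.

Proof. `F = G(A x)`. Let `J` be a set of rows of `A` which is a basis of the row space, `ρ = #J ≤ r`,
`A = B A_J` with an `r × ρ` matrix `B`. `G_1(z) = G(B z)` in `ρ` variables, `F = G_1(A_J x)`, so
`G_1 ≠ 0`. QDT for `A_J`: some `t ≤ n ρ ^ 2 ≤ n r ^ 2` for which the `ρ × ρ` matrix
`M = A_J V`, `V = (t ^ (i (j + 1)))`, `i < n`, `j < ρ`, is invertible. Put `y_j = 0` for `j ≥ ρ` in `vdm n r t F`: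
the result is `G_1(M y)`, which is not zero (substitute `M^(-1) y`). -/
def CndStmt : Prop :=
  ∀ (E : Type) [Field E] [CharZero E] (n r : ℕ) (A : Fin r → Fin n → E)
    (G : MvPolynomial (Fin r) E),
    (aeval (fun j => ∑ i, C (A j i) * X i) G : MvPolynomial (Fin n) E) ≠ 0 →
    ∃ t : ℕ, t ≤ n * r ^ 2 ∧
      vdm n r (t : E) (aeval (fun j => ∑ i, C (A j i) * X i) G) ≠ 0

/-- Row HIT. `F ≠ 0` computed with `s` multiplications does not vanish at
`x_i = ∑ j ≤ 2 s, t ^ (i (j + 1)) c_j` for some `t ≤ n (2 s + 1) ^ 2` and `c` with `∏ max(1, c_j) ≤ 8 ^ s`.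

Proof. ESS and CND: `F' = vdm n (2 s + 1) t F ≠ 0`. SBL: `F'` is computed with `s` multiplications from
`2 s + 1` variables. CAP for `F'` with `θ_i(c) = c` (characteristic `0`). `eval c (vdm n r t F)` is
`eval` of `F` at the point. -/
def HitStmt : Prop :=
  ∀ (E : Type) [Field E] [CharZero E] (n s : ℕ) (F : MvPolynomial (Fin n) E), F ≠ 0 →
    IsCheapF E n s F → ∃ t : ℕ, t ≤ n * (2 * s + 1) ^ 2 ∧ ∃ c : Fin (2 * s + 1) → ℕ,
      ∏ j, max 1 (c j) ≤ 8 ^ s ∧ eval (fun i : Fin n => pt E (2 * s + 1) t c i) F ≠ 0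

/-- Row CNT. Induction on `n`: with `N_n(K)` the number of the `c`,
`N_(n+1)(K) ≤ ∑ a ≤ K, N_n(K / max(1, a)) ≤ 3 ^ n K ^ 2 (1 + ∑ 1 ≤ a ≤ K, 1 / a ^ 2)`, and
`∑ 1 ≤ a ≤ K, 1 / a ^ 2 ≤ 2`. (For `K = 0` there is no `c`, the product is at least `1`.) -/
def CntStmt : Prop :=
  ∀ n K : ℕ, {c : Fin n → ℕ | ∏ i, max 1 (c i) ≤ K}.Finite ∧
    {c : Fin n → ℕ | ∏ i, max 1 (c i) ≤ K}.ncard ≤ K ^ 2 * 3 ^ n

/-- Row VAL (size of the values of a circuit). Induction on the gates: the value of each of the first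
`j` gates has absolute value at most `2 ^ ((β + j) 2 ^ m)`, `m` the number of products among them
(`add`, `sub`: `+ 1` in the exponent; `mul`: twice the exponent; a missing reference is `0`). -/
def ValStmt : Prop :=
  ∀ (G : List Gate) (β : ℕ) (x : ℕ → ℤ), (∀ v, (x v).natAbs ≤ 2 ^ β) →
    (out x G).natAbs ≤ 2 ^ ((β + G.length) * 2 ^ G.countP isMul)

/-- Row SIZ (size of the points). `t ≤ n (2 s + 1) ^ 2 ≤ 2 ^ (n + 2 r)`, `r = 2 s + 1`, `i ≤ n`,
`c_j ≤ 8 ^ s` (each factor of `∏ max 1 (c j)` is at least `1`), `r ≤ 2 ^ r`. -/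
def SizStmt : Prop :=
  ∀ (n s t i : ℕ) (c : Fin (2 * s + 1) → ℕ), t ≤ n * (2 * s + 1) ^ 2 → i ≤ n →
    ∏ j, max 1 (c j) ≤ 8 ^ s → (pt ℤ (2 * s + 1) t c i).natAbs ≤ 2 ^ bits n s

/-- Row REN (a circuit with its variables renamed). `BSH.CirStmt` (with all variables `< N`) and
`BSH.MapStmt` for the substitution `x_v -> X (idxOf (var v))` (or `0` if `x_v` does not occur), which is
injective on the variables which occur; `out` depends only on these. -/
def RenStmt : Prop :=
  ∀ (E : Type) [Field E] [CharZero E] (G : List Gate), WellFormed G → poly G ≠ 0 →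
    ∃ F : MvPolynomial (Fin G.length) E, F ≠ 0 ∧ IsCheapF E G.length (G.countP isMul) F ∧
      ∀ x : ℕ → ℤ, eval (fun i : Fin G.length => ((x i : ℤ) : E)) F =
        ((out (fun v => x (G.idxOf (Gate.var v))) G : ℤ) : E)

/-- Row TSA (the test).

Proof. If `poly G = 0`, all values are `0` (`out x G` is the value of `poly G` in every commutative
ring, `Helper78_ACIT`). If `poly G ≠ 0`: REN with `E = ℚ`, HIT: `t`, `c` with
`z = out (fun v => pt ℤ r t c (G.idxOf (Gate.var v))) G ≠ 0`; SIZ and VAL: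
`0 < |z| ≤ 2 ^ ((bits g s + g) 2 ^ s)` (`idxOf ≤ g`), and `Helper78_ACIT.exists_prime_not_dvd` gives a
prime `p ≤ 64 ((bits g s + g) 2 ^ s + 1) ^ 2` which does not divide `z`; `tv` is `z` modulo `p`. -/
def TsaStmt : Prop :=
  ∀ G : List Gate, WellFormed G →
    (G ∈ ACIT ↔ ∀ p, p.Prime →
      p ≤ 64 * ((bits G.length (G.countP isMul) + G.length) * 2 ^ G.countP isMul + 1) ^ 2 →
      ∀ t ≤ G.length * (2 * G.countP isMul + 1) ^ 2, ∀ c : Fin (2 * G.countP isMul + 1) → ℕ,
        ∏ j, max 1 (c j) ≤ 8 ^ G.countP isMul → tv p t c G = 0)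

end Pool.Agent.CPT
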