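import Mathlib
import Pool.Agent.CPT.StmtsA
import Pool.Agent.Helper12_UO.Transfer

set_option autoImplicit false

/-! Statements of the squad CPT, part C: one curve through all the points, which hits all products
and all factors of products of polynomials computed with `s` multiplications. -/

namespace Pool.Agent.CPT

open MvPolynomial Pool.Agent.BSH Pool.Agent.Helper78_ACIT

/-- The list of all `c ∈ ℕ ^ m` with `∏ max(1, c_i) ≤ K` (for `K ≥ 1`). -/
def pts : (m : ℕ) → ℕ → List (Fin m → ℕ)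
  | 0, _ => [fun i => i.elim0]
  | m + 1, K => (List.range (K + 1)).flatMap fun a =>
      (pts m (K / max 1 a)).map fun c => (Fin.cons a c : Fin (m + 1) → ℕ)

/-- The list of all parameters `t ≤ n (2 s + 1) ^ 2`, `c` with `∏ max(1, c_j) ≤ 8 ^ s`. -/
def prs (n s : ℕ) : List (ℕ × (Fin (2 * s + 1) → ℕ)) :=
  (List.range (n * (2 * s + 1) ^ 2 + 1)).flatMap fun t =>
    (pts (2 * s + 1) (8 ^ s)).map fun c => (t, c)

/-- The curve through `(N - 1)!` times the points with the parameters in the list `H`, `N` the length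
of `H` (the `j`-th point is reached at `τ = j`). -/
def crv {A : Type} [CommRing A] {r : ℕ} (H : List (ℕ × (Fin r → ℕ))) (τ : A) (i : ℕ) : A :=
  ∑ j : Fin H.length, ((H.length - 1).choose j : A) * ((∏ k ∈ Finset.range j, (τ - (k : A))) *
    ∏ k ∈ Finset.Ico ((j : ℕ) + 1) H.length, ((k : A) - τ)) * pt A r (H.get j).1 (H.get j).2 i

/-- The polynomial over `E` in `x_0, ..., x_(n-1)` of the circuit `G`. -/
noncomputable def gp (E : Type) [Field E] (n : ℕ) (G : List Gate) : MvPolynomial (Fin n) E :=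
  out (fun i => if h : i < n then X ⟨i, h⟩ else 0) G

/-- Row PTS. Induction on `m`: `a * b ≤ K ↔ b ≤ K / a` for `a ≥ 1`; the length is at most
`∑ a ≤ K, 3 ^ m (K / max(1, a)) ^ 2 ≤ 3 ^ m K ^ 2 (1 + ∑ 1 ≤ a ≤ K, 1 / a ^ 2)`, and
`∑ 1 ≤ a ≤ K, 1 / a ^ 2 ≤ 2 - 1 / K`. -/
def PtsStmt : Prop :=
  (∀ (m K : ℕ) (c : Fin m → ℕ), 1 ≤ K → (c ∈ pts m K ↔ ∏ i, max 1 (c i) ≤ K)) ∧
    (∀ m K : ℕ, 1 ≤ K → (pts m K).length ≤ K ^ 2 * 3 ^ m)

/-- Row NMB (number of the points). From PTS: `64 ^ s 3 ^ (2 s + 1) = 3 * 576 ^ s`. -/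
def NmbStmt : Prop :=
  ∀ n s : ℕ, (∀ (t : ℕ) (c : Fin (2 * s + 1) → ℕ), (t, c) ∈ prs n s ↔
      t ≤ n * (2 * s + 1) ^ 2 ∧ ∏ i, max 1 (c i) ≤ 8 ^ s) ∧
    1 ≤ (prs n s).length ∧ (prs n s).length ≤ (n * (2 * s + 1) ^ 2 + 1) * (3 * 576 ^ s)

/-- Row CRV (the curve). For `τ = j` all products with another index vanish, and the one with the
index `j` is `j! (N - 1 - j)!`, times `C(N - 1, j)` is `(N - 1)!`. In `E[T]` each product has `N - 1`
factors of degree at most `1`. -/
def CrvStmt : Prop :=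
  (∀ (A : Type) [CommRing A] (r : ℕ) (H : List (ℕ × (Fin r → ℕ))) (j : Fin H.length) (i : ℕ),
    crv H ((j : ℕ) : A) i =
      ((H.length - 1).factorial : A) * pt A r (H.get j).1 (H.get j).2 i) ∧
  (∀ (A A' : Type) [CommRing A] [CommRing A'] (φ : A →+* A') (r : ℕ)
    (H : List (ℕ × (Fin r → ℕ))) (τ : A) (i : ℕ), φ (crv H τ i) = crv H (φ τ) i) ∧
  ∀ (E : Type) [Field E] (r : ℕ) (H : List (ℕ × (Fin r → ℕ))) (i : ℕ),
    (crv H (Polynomial.X : Polynomial E) i).natDegree ≤ H.length - 1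

/-- Row HSM. HIT for `F(M x)`, which is as cheap as `F` (SBL) and not zero, and NMB. -/
def HsmStmt : Prop :=
  ∀ (E : Type) [Field E] [CharZero E] (n s M : ℕ) (F : MvPolynomial (Fin n) E), 1 ≤ M → F ≠ 0 →
    IsCheapF E n s F → ∃ j : Fin (prs n s).length,
      eval (fun i : Fin n => (M : E) *
        pt E (2 * s + 1) ((prs n s).get j).1 ((prs n s).get j).2 i) F ≠ 0

/-- Row PRD (products and factors). For each `F` in the list `F(curve)` is a nonzero polynomial in
`T` (its value at `T = j` is not zero for the `j` of HSM with `M = (N - 1)!`), so the product of them is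
not zero, and its divisor `P(curve)` is not zero. The degree of `P(curve)` is at most
`deg P * (N - 1)`, so one of the numbers `τ ≤ deg P * (N - 1)` is not a root. -/
def PrdStmt : Prop :=
  ∀ (E : Type) [Field E] [CharZero E] (n s : ℕ) (L : List (MvPolynomial (Fin n) E))
    (P : MvPolynomial (Fin n) E), (∀ F ∈ L, IsCheapF E n s F) → L.prod ≠ 0 → P ∣ L.prod →
    ∃ τ : ℕ, τ ≤ P.totalDegree * ((prs n s).length - 1) ∧
      eval (fun i : Fin n => crv (prs n s) (τ : E) i) P ≠ 0

/-- Row SZC (size of the curve). With `N = (prs n s).length`, `β = bits n s`: each of the `N` summands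
is at most `2 ^ N (τ + N) ^ N 2 ^ β`, `τ + N ≤ (D + 1) N ≤ 2 ^ D 2 ^ N`. -/
def SzcStmt : Prop :=
  ∀ n s D τ i : ℕ, τ ≤ D * ((prs n s).length - 1) → i ≤ n →
    (crv (prs n s) (τ : ℤ) i).natAbs ≤
      2 ^ ((prs n s).length * (D + (prs n s).length + 2) + bits n s)

/-- Row GPM. The polynomial of a circuit over `E`, in `n` variables. `gp E n G` is the image of
`poly G` under `eval₂Hom (C ∘ Int.cast) (fun i => if h : i < n then X ⟨i, h⟩ else 0)`; values; the total
degree does not grow; if all variables of `G` are among `x_0, ..., x_(n-1)`, this is injective on the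
polynomials in these variables. -/
def GpmStmt : Prop :=
  ∀ (E : Type) [Field E] [CharZero E] (n : ℕ) (G : List Gate), WellFormed G →
    (∀ v, Gate.var v ∈ G → v < n) →
    (gp E n G).totalDegree ≤ (poly G).totalDegree ∧
    (∀ x : ℕ → ℤ, eval (fun i : Fin n => ((x i : ℤ) : E)) (gp E n G) = ((out x G : ℤ) : E)) ∧
    (poly G ≠ 0 → gp E n G ≠ 0)

/-- Row CHG (circuits are cheap). As `BSH.CirStmt` (the gates of `G` in their order; only the gates
`mul` give products). -/
def ChgStmt : Prop :=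
  ∀ (E : Type) [Field E] (n : ℕ) (G : List Gate), WellFormed G →
    IsCheapF E n (G.countP isMul) (gp E n G)

/-- Row TSC (the test for factors of products). If `poly G ≠ 0`: GPM, PRD with `P = gp E n G`,
`deg P ≤ D`: an integer value `z ≠ 0` at the curve with `τ ≤ D (N - 1)`; `|z| ≤ 2 ^ (b + D γ)`,
`γ = N (D + N + 2) + bits n s` (SZC), and a small prime which does not divide `z`
(`Helper78_ACIT.exists_prime_not_dvd`). Compare the row TST of BSH. -/
def TscStmt : Prop :=
  ∀ (E : Type) [Field E] [CharZero E] (n s D b : ℕ) (G : List Gate), WellFormed G →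
    (∀ v, Gate.var v ∈ G → v < n) →
    (poly G = 0 ∨ ((poly G).totalDegree ≤ D ∧ Pool.Agent.UO.length (poly G) ≤ 2 ^ b ∧
      ∃ L : List (MvPolynomial (Fin n) E), (∀ F ∈ L, IsCheapF E n s F) ∧ L.prod ≠ 0 ∧
        gp E n G ∣ L.prod)) →
    (G ∈ ACIT ↔ ∀ p, p.Prime →
      p ≤ 64 * (b + D * ((prs n s).length * (D + (prs n s).length + 2) + bits n s) + 1) ^ 2 →
      ∀ τ ≤ D * ((prs n s).length - 1), out (fun i => crv (prs n s) (τ : ZMod p) i) G = 0)

end Pool.Agent.CPT
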