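import Mathlib
import Pool.Agent.CPT.StmtsA

set_option autoImplicit false

/-! Statements of the rows of the squad CPT, part D: limits of circuits (border complexity).
`E[ε] = Polynomial E`, `E(ε) = FractionRing (Polynomial E)`, written `E'` in the proofs. -/

namespace Pool.Agent.CPT

open MvPolynomial Pool.Agent.BSH Pool.Agent.Helper78_ACIT

/-- The field of rational functions in `ε`. -/
abbrev EE (E : Type) [Field E] : Type := FractionRing (Polynomial E)

/-- A polynomial over `E[ε]` at `ε = 0`. -/
noncomputable def at0 {E : Type} [Field E] {n : ℕ} (G : MvPolynomial (Fin n) (Polynomial E)) :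
    MvPolynomial (Fin n) E :=
  map (Polynomial.evalRingHom (0 : E)) G

/-- A polynomial over `E[ε]` as a polynomial over `E(ε)`. -/
noncomputable def gen1 {E : Type} [Field E] {n : ℕ} (G : MvPolynomial (Fin n) (Polynomial E)) :
    MvPolynomial (Fin n) (EE E) :=
  map (algebraMap (Polynomial E) (EE E)) G

/-- `F` is a limit of polynomials which are computed with `s` multiplications: there is a polynomial
over `E[ε]` which is `F` for `ε = 0` and is computed with `s` multiplications over `E(ε)`. -/
def IsLim (E : Type) [Field E] (n s : ℕ) (F : MvPolynomial (Fin n) E) : Prop :=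
  ∃ G : MvPolynomial (Fin n) (Polynomial E), at0 G = F ∧ IsCheapF (EE E) n s (gen1 G)

/-- The value `∑ j < r, t ^ (i (j + 1)) y_j` of the variable `x_i`. -/
def ptA {A : Type} [CommRing A] (r t : ℕ) (y : Fin r → A) (i : ℕ) : A :=
  ∑ j : Fin r, (t : A) ^ (i * ((j : ℕ) + 1)) * y j

/-- Row LFT (extension of the field). `map` sends `sp E (range X) l` into
`sp E' (range X) (l.map (map ..))` (induction on the list, `Submodule.span_induction`). -/
def LftStmt : Prop :=
  ∀ (E E' : Type) [Field E] [Field E'] [Algebra E E'] (n s : ℕ) (F : MvPolynomial (Fin n) E),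
    IsCheapF E n s F → IsCheapF E' n s (map (algebraMap E E') F)

/-- Row CHL. `G = map Polynomial.C F` and LFT for `E' = E(ε)`. -/
def ChlStmt : Prop :=
  ∀ (E : Type) [Field E] (n s : ℕ) (F : MvPolynomial (Fin n) E), IsCheapF E n s F → IsLim E n s F

/-- Row BRI (independence at `ε = 0` gives independence over `E(ε)`).

Proof. `F = at0 G ≠ 0`, so `G ≠ 0` and `gen1 G ≠ 0`. Let `m_j = P_j / q` be the functions for `F`,
`P_j, q` polynomials over `E`; the `P_j L(F) ^ α` are also independent (multiply by `q`). Take the `P_j`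
as polynomials over `E(ε)`. A relation over `E(ε)`: finitely many coefficients, not all zero; multiply
them by a common denominator, then they are in `E[ε]`, `∑ e_(j,α) P_j L(gen1 G) ^ α = 0`. Multiply by
`(gen1 G) ^ A`, `A` large: `∑ e_(j,α) P_j G ^ (A - |α|) ∏ (∂_i G) ^ (α_i) = 0` in `E[ε][x]` (which is
contained in `E(ε)[x]`). Divide by the highest power `ε ^ μ` which divides all `e_(j,α)`,
`e = ε ^ μ e'`, and put `ε = 0`: `∑ e'_(j,α)(0) P_j F ^ (A - |α|) ∏ (∂_i F) ^ (α_i) = 0` with not all
`e'_(j,α)(0)` zero (`at0` commutes with `∂_i`). Divide by `F ^ A`: a contradiction. (The proof is the one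
of SPC with `ε` in place of `x_0 - c`.) -/
def BriStmt : Prop :=
  ∀ (E : Type) [Field E] (n N : ℕ) (G : MvPolynomial (Fin n) (Polynomial E)), at0 G ≠ 0 →
    Ind E n (L (at0 G)) N → Ind (EE E) n (L (gen1 G)) N

/-- Row BAU (step (A) for limits). BRI, and AUB for `gen1 G` over `E(ε)` (`gen1 G ≠ 0`). -/
def BauStmt : Prop :=
  ∀ (E : Type) [Field E] (n s N : ℕ) (F : MvPolynomial (Fin n) E), F ≠ 0 → IsLim E n s F →
    Ind E n (L F) N → N ≤ 8 ^ s

/-- Row BSL (linear substitutions in limits). `ψ = aeval (fun i => map Polynomial.C (φ (X i)))` over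
`E[ε]`: `at0 (ψ G) = φ (at0 G)`, and `gen1 (ψ G)` is the image of `gen1 G` under the substitution
`x_i -> map (algebraMap E E') (φ (X i))`, to which SBL over `E' = E(ε)` applies. -/
def BslStmt : Prop :=
  ∀ (E : Type) [Field E] (n k s : ℕ) (F : MvPolynomial (Fin n) E)
    (φ : MvPolynomial (Fin n) E →ₐ[E] MvPolynomial (Fin k) E), IsLim E n s F →
    (∀ i, φ (X i) ∈ sp E (Set.range X) ([] : List (MvPolynomial (Fin k) E))) →
    IsLim E k s (φ F)

/-- Row BRK (the rank of the derivatives can only become smaller for `ε = 0`).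

Proof. The derivatives of a polynomial in `r` linear forms are combinations (with coefficients which
are the coefficients of the forms) of `r` polynomials (chain rule): the span over `E(ε)` of the
`∂_i (gen1 G)` has dimension `≤ r`. Let `I` be a set of indices for which the `∂_i (at0 G)`, `i ∈ I`, are
a basis of the span over `E`. Then the `∂_i (gen1 G)`, `i ∈ I`, are independent over `E(ε)`: a relation,
coefficients in `E[ε]` without common factor `ε`, gives for `ε = 0` a relation of the
`∂_i (at0 G)`. So `#I ≤ r`. -/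
def BrkStmt : Prop :=
  ∀ (E : Type) [Field E] (n r : ℕ) (G : MvPolynomial (Fin n) (Polynomial E))
    (A : Fin r → Fin n → EE E) (H : MvPolynomial (Fin r) (EE E)),
    gen1 G = aeval (fun j => ∑ i, C (A j i) * X i) H →
    Module.finrank E (Submodule.span E (Set.range fun i => pderiv i (at0 G))) ≤ r

/-- Row ESD (characteristic `0`: if the derivatives of `F` span a space of dimension `≤ r`, then `F` is a
polynomial in `r` linear forms).

Proof. `U = {u ∈ E ^ n : ∑ u_i ∂_i F = 0}` has dimension `n - ρ`, `ρ ≤ r` the dimension of the span.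
Choose an invertible matrix `P` the last `n - ρ` columns of which are a basis of `U`, and
`F_1(y) = F(P y)`. Then `∂F_1 / ∂y_j = 0` for `j ≥ ρ` (chain rule), so in characteristic `0` `F_1` does
not contain these variables, and `F(x) = F_1(P^(-1) x)` is a polynomial in the first `ρ` coordinates
of `P^(-1) x`. Fill up with zero forms. -/
def EsdStmt : Prop :=
  ∀ (E : Type) [Field E] [CharZero E] (n r : ℕ) (F : MvPolynomial (Fin n) E),
    Module.finrank E (Submodule.span E (Set.range fun i => pderiv i F)) ≤ r →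
    ∃ (A : Fin r → Fin n → E) (G : MvPolynomial (Fin r) E),
      F = aeval (fun j => ∑ i, C (A j i) * X i) G

/-- Row BES (essential variables of limits). ESS over `E(ε)`, BRK, ESD. -/
def BesStmt : Prop :=
  ∀ (E : Type) [Field E] [CharZero E] (n s : ℕ) (F : MvPolynomial (Fin n) E), IsLim E n s F →
    ∃ (A : Fin (2 * s + 1) → Fin n → E) (G : MvPolynomial (Fin (2 * s + 1)) E),
      F = aeval (fun j => ∑ i, C (A j i) * X i) G

/-- Row CAL (capacity theorem for limits). GRD, BSL (for `aeval ρ F`), BAU. -/
def CalStmt : Prop :=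
  ∀ (E : Type) [Field E] [CharZero E] (n s : ℕ) (θ : Fin n → ℕ → E)
    (F : MvPolynomial (Fin n) E), (∀ i, Function.Injective (θ i)) → F ≠ 0 → IsLim E n s F →
    ∃ c : Fin n → ℕ, ∏ i, max 1 (c i) ≤ 8 ^ s ∧ eval (fun i => θ i (c i)) F ≠ 0

/-- Row HTL (HIT for limits, with arbitrary nodes). BES and CND: `F' = vdm n (2 s + 1) t F ≠ 0`, BSL,
CAL for `F'` and `θ`; `eval y (vdm n r t F)` is the value of `F` at the point `ptA r t y`. -/
def HtlStmt : Prop :=
  ∀ (E : Type) [Field E] [CharZero E] (n s : ℕ) (θ : Fin (2 * s + 1) → ℕ → E)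
    (F : MvPolynomial (Fin n) E), (∀ i, Function.Injective (θ i)) → F ≠ 0 → IsLim E n s F →
    ∃ t : ℕ, t ≤ n * (2 * s + 1) ^ 2 ∧ ∃ c : Fin (2 * s + 1) → ℕ,
      ∏ j, max 1 (c j) ≤ 8 ^ s ∧
      eval (fun i : Fin n => ptA (2 * s + 1) t (fun j => θ j (c j)) i) F ≠ 0

end Pool.Agent.CPT
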