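import Mathlib
import Pool.Agent.CPT.StmtsC
import Pool.Agent.CPT.StmtsD

set_option autoImplicit false

/-! Statements of the rows of the squad CPT, part E: products of limits and their factors. -/

namespace Pool.Agent.CPT

open MvPolynomial Pool.Agent.BSH Pool.Agent.Helper78_ACIT

/-- Row HSL. HTL with the nodes `θ_i(c) = M c` and NMB (`M * pt E r t c i = ptA r t (M c) i`). -/
def HslStmt : Prop :=
  ∀ (E : Type) [Field E] [CharZero E] (n s M : ℕ) (F : MvPolynomial (Fin n) E), 1 ≤ M → F ≠ 0 →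
    IsLim E n s F → ∃ j : Fin (prs n s).length,
      eval (fun i : Fin n => (M : E) *
        pt E (2 * s + 1) ((prs n s).get j).1 ((prs n s).get j).2 i) F ≠ 0

/-- Row PRL. As PRD, with HSL in place of HSM. -/
def PrlStmt : Prop :=
  ∀ (E : Type) [Field E] [CharZero E] (n s : ℕ) (L : List (MvPolynomial (Fin n) E))
    (P : MvPolynomial (Fin n) E), (∀ F ∈ L, IsLim E n s F) → L.prod ≠ 0 → P ∣ L.prod →
    ∃ τ : ℕ, τ ≤ P.totalDegree * ((prs n s).length - 1) ∧
      eval (fun i : Fin n => crv (prs n s) (τ : E) i) P ≠ 0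

/-- Row TSL. As TSC, with PRL in place of PRD. -/
def TslStmt : Prop :=
  ∀ (E : Type) [Field E] [CharZero E] (n s D b : ℕ) (G : List Gate), WellFormed G →
    (∀ v, Gate.var v ∈ G → v < n) →
    (poly G = 0 ∨ ((poly G).totalDegree ≤ D ∧ Pool.Agent.UO.length (poly G) ≤ 2 ^ b ∧
      ∃ L : List (MvPolynomial (Fin n) E), (∀ F ∈ L, IsLim E n s F) ∧ L.prod ≠ 0 ∧
        gp E n G ∣ L.prod)) →
    (G ∈ ACIT ↔ ∀ p, p.Prime →
      p ≤ 64 * (b + D * ((prs n s).length * (D + (prs n s).length + 2) + bits n s) + 1) ^ 2 →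
      ∀ τ ≤ D * ((prs n s).length - 1), out (fun i => crv (prs n s) (τ : ZMod p) i) G = 0)

end Pool.Agent.CPT
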